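import Pool.Agent.Y911.JL.Psi

/-!
# The limiting distribution of `c / rad (abc) ^ (1/3)` over all abc triples

All coprime triples `a + b = c`, `a ≤ b`, of whatever height are ordered by their radical
`R = rad (abc)`. We determine the asymptotic number `κ X ^ (2/3)` of the triples with `R ≤ X`, with
an explicit `κ`, the joint limit law of the repeated part `abc / R` and of the shape `b / a`, and
the limit law of `c / R ^ (1/3)`. In particular almost every triple satisfies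
`c ≤ ψ (R) R ^ (1/3)` for every function `ψ` tending to infinity, and for no constant `ψ`.
-/

set_option autoImplicit false

namespace Pool.Agent.Results.MP_7aad9f_nt.JointLaw

open Filter Topology

/-- the product of the primes dividing `n` -/
def radical (n : ℕ) : ℕ := ∏ p ∈ n.primeFactors, p

/-- the abc triples `(a, b, a + b)`, written `(a, b)`: `a` and `b` are coprime and `1 ≤ a ≤ b` -/
def IsTriple (t : ℕ × ℕ) : Prop := 0 < t.1 ∧ t.1 ≤ t.2 ∧ Nat.Coprime t.1 t.2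

/-- the radical of `abc` for the triple `(a, b, a + b)` written `(a, b)` -/
def rad3 (t : ℕ × ℕ) : ℕ := radical (t.1 * t.2 * (t.1 + t.2))

/-- the abc triples of radical at most `X`, of whatever height -/
def triples (X : ℝ) : Set (ℕ × ℕ) := {t | IsTriple t ∧ (rad3 t : ℝ) ≤ X}

/-- the repeated part `abc / rad (abc)` -/
def repeated (t : ℕ × ℕ) : ℕ := t.1 * t.2 * (t.1 + t.2) / rad3 t

/-- the weight of the repeated part `w` (it is `0` for `w = 0`) -/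
noncomputable def weight (w : ℕ) : ℝ :=
  (w : ℝ) ^ (-(1 : ℝ) / 3) *
    ∏ q ∈ w.primeFactors, (3 * ((q : ℝ) - 1) / ((q : ℝ) ^ 2 + (q : ℝ) - 3))

/-- the density of the shape `m = b / a` -/
noncomputable def shape (m : ℝ) : ℝ := 1 / 2 * (m * (1 + m)) ^ (-(2 : ℝ) / 3)

/-- the weight of the triples with `c ≤ L rad ^ (1/3)`: the triples with repeated part `w` and
shape `m` are those with `(c / rad ^ (1/3)) ^ 3 = w (1 + m) ^ 2 / m` -/
noncomputable def distr (L : ℝ) : ℝ :=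
  ∑' w : ℕ, weight w * ∫ m in {m : ℝ | 1 < m ∧ (w : ℝ) * (1 + m) ^ 2 ≤ L ^ 3 * m}, shape m

/-- **The distribution of all abc triples ordered by radical.**
There are `c₀, κ > 0`, given by
`c₀ = ∏ (1 - 4/q² + 3/q³)` and `κ = Γ(1/3)² / (4 Γ(2/3)) ∏ (1 - 1/q) (1 + 1/q + 3 q^(-4/3) +
3 q^(-5/3))` (products over the primes `q`), such that
(1) the number of triples with `rad (abc) ≤ X` is asymptotic to `κ X ^ (2/3)`;
(2) for every set `S` of integers and every `μ ≥ 1` the number of those of them with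
`abc / rad (abc) ∈ S` and `b ≥ μ a` is asymptotic to
`c₀ (∑ w ∈ S, weight w) (∫ m > μ, shape m) X ^ (2/3)`;
(3) for every `L` the number of those of them with `c ≤ L rad (abc) ^ (1/3)` is asymptotic to
`G(L) X ^ (2/3)` with `G(L) = c₀ distr L < κ`, and `G(L) → κ` for `L → ∞`;
(4) for every `ψ : ℕ → ℝ` tending to infinity the number of those of them with
`c > ψ (rad (abc)) rad (abc) ^ (1/3)` is `o (X ^ (2/3))`. -/
theorem result : ∃ c₀ κ : ℝ, 0 < c₀ ∧ 0 < κ ∧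
    Tendsto (fun n : ℕ => ∏ q ∈ n.primesBelow, (1 - 4 / (q : ℝ) ^ 2 + 3 / (q : ℝ) ^ 3)) atTop
      (𝓝 c₀) ∧
    Tendsto (fun n : ℕ => Real.Gamma (1 / 3) ^ 2 / (4 * Real.Gamma (2 / 3)) *
      ∏ q ∈ n.primesBelow, ((1 - 1 / (q : ℝ)) * (1 + 1 / (q : ℝ) +
        3 * (q : ℝ) ^ (-(4 : ℝ) / 3) + 3 * (q : ℝ) ^ (-(5 : ℝ) / 3)))) atTop (𝓝 κ) ∧
    (∀ X : ℝ, (triples X).Finite) ∧
    Tendsto (fun X : ℝ => ((triples X).ncard : ℝ) / X ^ ((2 : ℝ) / 3)) atTop (𝓝 κ) ∧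
    Summable weight ∧
    (∀ (S : Set ℕ) (μ : ℝ), 1 ≤ μ → Tendsto (fun X : ℝ =>
      ({t | t ∈ triples X ∧ repeated t ∈ S ∧ μ * (t.1 : ℝ) ≤ (t.2 : ℝ)}.ncard : ℝ) /
        X ^ ((2 : ℝ) / 3)) atTop
      (𝓝 (c₀ * (∑' w, S.indicator weight w) * ∫ m in Set.Ioi μ, shape m))) ∧
    (∀ L : ℝ, c₀ * distr L < κ ∧ Tendsto (fun X : ℝ =>
      ({t | t ∈ triples X ∧ ((t.1 + t.2 : ℕ) : ℝ) ≤ L * (rad3 t : ℝ) ^ ((1 : ℝ) / 3)}.ncard : ℝ) /
        X ^ ((2 : ℝ) / 3)) atTop (𝓝 (c₀ * distr L))) ∧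
    Tendsto (fun L : ℝ => c₀ * distr L) atTop (𝓝 κ) ∧
    (∀ ψ : ℕ → ℝ, Tendsto ψ atTop atTop → Tendsto (fun X : ℝ =>
      ({t | t ∈ triples X ∧
        ψ (rad3 t) * (rad3 t : ℝ) ^ ((1 : ℝ) / 3) < ((t.1 + t.2 : ℕ) : ℝ)}.ncard : ℝ) /
        X ^ ((2 : ℝ) / 3)) atTop (𝓝 0)) := by
  have eT : ∀ (X : ℝ) (t : ℕ × ℕ), t ∈ triples X ↔
      t ∈ Pool.Agent.Results.MP_1ea25c_nt.AlmostAllTriples.triples X := by
    intro X t
    exact ⟨fun h => ⟨h.1.1, h.1.2.1, h.1.2.2, h.2⟩, fun h => ⟨⟨h.1, h.2.1, h.2.2.1⟩, h.2.2.2⟩⟩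
  have eT' : ∀ X : ℝ, triples X =
      Pool.Agent.Results.MP_1ea25c_nt.AlmostAllTriples.triples X := fun X => Set.ext (eT X)
  have eW : weight = Pool.Agent.Y911.JL.rho := rfl
  have eA : ∀ μ : ℝ, ∫ m in Set.Ioi μ, shape m = Pool.Agent.Y911.JL.Ar μ := fun μ => by
    unfold shape Pool.Agent.Y911.JL.Ar
    rw [MeasureTheory.integral_const_mul]
    rfl
  have eR : ∀ (X : ℝ) (t : ℕ × ℕ), t ∈ triples X →
      repeated t = Pool.Agent.TH498.AR.psi3 ∅ t := by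
    intro X t ht
    have h1 := Pool.Agent.TH498.AR.coprime3 (P := ∅) ht.1.2.2
    rw [Pool.Agent.Y911.AB.radP_rad3] at h1
    exact Nat.div_eq_of_eq_mul_left (Pool.Agent.Results.MP_1ea25c_nt.AlmostAllTriples.rad3_pos t)
      h1.symm
  have e3 : ∀ t : ℕ × ℕ, ((rad3 t : ℝ) ^ ((1 : ℝ) / 3)) ^ 3 = rad3 t := fun t => by
    rw [← Real.rpow_natCast, ← Real.rpow_mul (Nat.cast_nonneg _)]
    norm_num
  have eD : ∀ L : ℝ, Pool.Agent.Y911.JL.c0 * distr L = Pool.Agent.Y911.JL.GG L := by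
    intro L
    unfold Pool.Agent.Y911.JL.GG distr
    congr 1
    refine tsum_congr fun w => ?_
    rcases Nat.eq_zero_or_pos w with rfl | hw
    · rw [eW, Pool.Agent.Y911.JL.rho_zero, zero_mul, zero_mul]
    · have hw0 : (0 : ℝ) < w := by exact_mod_cast hw
      rw [eW]
      unfold shape Pool.Agent.Y911.JL.HH
      rw [MeasureTheory.integral_const_mul]
      congr 3
      have : {m : ℝ | 1 < m ∧ (w : ℝ) * (1 + m) ^ 2 ≤ L ^ 3 * m} =
          {m : ℝ | 1 < m ∧ (1 + m) ^ 2 ≤ L ^ 3 / w * m} := by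
        ext m
        rw [Set.mem_ofPred_eq, Set.mem_ofPred_eq, div_mul_eq_mul_div, le_div_iff₀ hw0, mul_comm]
      rw [this]
  have hk : Pool.Agent.Y911.JL.c0 * (∑' w, Pool.Agent.Y911.JL.rho w) * Pool.Agent.Y911.JL.Ar 1 =
      Real.Gamma (1 / 3) ^ 2 / (4 * Real.Gamma (2 / 3)) *
        (Pool.Agent.Y911.JL.c0 * (∑' w, Pool.Agent.Y911.JL.rho w)) := by
    rw [Pool.Agent.Y911.JL.Ar_one, mul_comm]
  refine ⟨Pool.Agent.Y911.JL.c0, Pool.Agent.Y911.JL.c0 * (∑' w, Pool.Agent.Y911.JL.rho w) *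
    Pool.Agent.Y911.JL.Ar 1, Pool.Agent.Y911.JL.consts.1, Pool.Agent.Y911.JL.kap_pos, ?_, ?_,
    fun X => ?_, ?_, Pool.Agent.Y911.JL.consts.2.2.1, fun S μ hμ => ?_, fun L => ⟨?_, ?_⟩, ?_,
    fun ψ hψ => ?_⟩
  · rw [← tendsto_add_atTop_iff_nat 1]
    exact Pool.Agent.Y911.JL.pp_tendsto
  · rw [hk]
    exact Pool.Agent.Y911.JL.euler.const_mul _
  · rw [eT']
    exact Pool.Agent.Y911.AA.triples_finite' X
  · simp only [eT']
    exact Pool.Agent.Y911.JL.total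
  · rw [eA]
    have h := Pool.Agent.Y911.JL.joint S hμ
    refine h.congr fun X => ?_
    congr 3
    ext t
    constructor
    · rintro ⟨h1, h2, h3⟩
      rw [← eT] at h1
      exact ⟨h1, by rw [eR X t h1]; exact h2, h3⟩
    · rintro ⟨h1, h2, h3⟩
      rw [eR X t h1] at h2
      exact ⟨(eT X t).1 h1, h2, h3⟩
  · rw [eD]
    exact Pool.Agent.Y911.JL.GG_lt L
  · rw [eD]
    refine (Pool.Agent.Y911.JL.dist L).congr fun X => ?_
    congr 3
    ext t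
    have h4 : ((t.1 + t.2 : ℕ) : ℝ) ≤ L * (rad3 t : ℝ) ^ ((1 : ℝ) / 3) ↔
        ((t.1 + t.2 : ℕ) : ℝ) ^ 3 ≤ L ^ 3 * rad3 t := by
      have h5 := Odd.pow_le_pow (n := 3) (a := ((t.1 + t.2 : ℕ) : ℝ))
        (b := L * (rad3 t : ℝ) ^ ((1 : ℝ) / 3)) (by decide)
      rw [mul_pow, e3] at h5
      exact h5.symm
    rw [Set.mem_ofPred_eq, Set.mem_ofPred_eq, h4, eT]
    rfl
  · simp only [eD]
    exact Pool.Agent.Y911.JL.GG_tendsto
  · refine (Pool.Agent.Y911.JL.psi_zero hψ).congr fun X => ?_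
    congr 3
    ext t
    have h4 : ψ (rad3 t) * (rad3 t : ℝ) ^ ((1 : ℝ) / 3) < ((t.1 + t.2 : ℕ) : ℝ) ↔
        ψ (rad3 t) ^ 3 * rad3 t < ((t.1 + t.2 : ℕ) : ℝ) ^ 3 := by
      have h5 := Odd.pow_lt_pow (n := 3) (a := ψ (rad3 t) * (rad3 t : ℝ) ^ ((1 : ℝ) / 3))
        (b := ((t.1 + t.2 : ℕ) : ℝ)) (by decide)
      rw [mul_pow, e3] at h5
      exact h5.symm
    rw [Set.mem_ofPred_eq, Set.mem_ofPred_eq, h4, eT]
    rfl

end Pool.Agent.Results.MP_7aad9f_nt.JointLaw
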