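import Pool.Agent.Y913.Zm.Fn
import Pool.Agent.Y913.Wm.Pr
import Pool.Agent.Y913.Vm.Heavy
import Pool.Agent.Y913.Sm.AbcP

/-!
For all `n` and `δ`, `ε > 0` there are `K`, `C`, `η > 0` such that for every `Y ≥ 1` only finitely
many, at most `C * Y ^ ε`, triples of coprime positive integers `a + b = c ≥ Y ^ K` satisfy: each
of `a`, `b`, `c` is a product of powers of `n` integers `≤ Y`; or two of them are and the third is
`d * w` with `d` a product of powers of `n` integers `≤ Y ^ η` and `w ≤ c ^ (1 - δ)`. Neither `c`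
nor the exponents are bounded, and the bases may be multiplicatively dependent. Also at most
`C * Y ^ ε` abc triples with at most `n` prime factors and radical `R ≤ Y` have `c ≥ R ^ K`.
-/

set_option autoImplicit false

namespace Pool.Agent.Results.MP_7aad9f_nt.PowerProductsAllHeights

/-- `m` is a product of powers of `n` positive integers `≤ Z` -/
def PowerProduct (n : ℕ) (Z : ℝ) (m : ℕ) : Prop :=
  ∃ b e : Fin n → ℕ, (∀ i, 0 < b i ∧ (b i : ℝ) ≤ Z) ∧ m = ∏ i, b i ^ e i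

/-- `m = d * w` where `d` is a product of powers of `n` positive integers `≤ Z` and `w ≤ W` -/
def AlmostPowerProduct (n : ℕ) (Z W : ℝ) (m : ℕ) : Prop :=
  ∃ d w : ℕ, m = d * w ∧ PowerProduct n Z d ∧ (w : ℝ) ≤ W

/-- each of `a`, `b`, `c = a + b` is a product of powers of `n` positive integers `≤ Y` -/
def ThreeMembers (n : ℕ) (Y : ℝ) (q : ℕ × ℕ) : Prop :=
  PowerProduct n Y q.1 ∧ PowerProduct n Y q.2 ∧ PowerProduct n Y (q.1 + q.2)

/-- two of `a`, `b`, `c = a + b` are products of powers of `n` positive integers `≤ Y`, and the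
third one is `d * w` where `d` is a product of powers of `n` positive integers `≤ Y ^ η` and
`w ≤ c ^ (1 - δ)` -/
def TwoMembers (n : ℕ) (δ η Y : ℝ) (q : ℕ × ℕ) : Prop :=
  (PowerProduct n Y q.2 ∧ PowerProduct n Y (q.1 + q.2) ∧
      AlmostPowerProduct n (Y ^ η) (((q.1 + q.2 : ℕ) : ℝ) ^ (1 - δ)) q.1) ∨
    (PowerProduct n Y q.1 ∧ PowerProduct n Y (q.1 + q.2) ∧
      AlmostPowerProduct n (Y ^ η) (((q.1 + q.2 : ℕ) : ℝ) ^ (1 - δ)) q.2) ∨
    (PowerProduct n Y q.1 ∧ PowerProduct n Y q.2 ∧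
      AlmostPowerProduct n (Y ^ η) (((q.1 + q.2 : ℕ) : ℝ) ^ (1 - δ)) (q.1 + q.2))

/-- the abc triples `(a, b, a + b)`, written `(a, b)`: coprime positive `a`, `b` such that
`c = a + b ≥ Y ^ K`, with one of the two properties -/
def exceptional (n : ℕ) (δ η K Y : ℝ) : Set (ℕ × ℕ) :=
  {q | 0 < q.1 ∧ 0 < q.2 ∧ Nat.Coprime q.1 q.2 ∧ Y ^ K ≤ ((q.1 + q.2 : ℕ) : ℝ) ∧
    (ThreeMembers n Y q ∨ TwoMembers n δ η Y q)}

/-- the radical of `a * b * (a + b)` -/
def radical (q : ℕ × ℕ) : ℕ := ∏ p ∈ (q.1 * q.2 * (q.1 + q.2)).primeFactors, p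

/-- the abc triples `(a, b, a + b)`, written `(a, b)`: coprime positive `a`, `b` such that at most
`n` primes divide `a * b * (a + b)`, the radical `R` of `a * b * (a + b)` is at most `Y`, and
`a + b ≥ R ^ K` -/
def violations (n : ℕ) (K Y : ℝ) : Set (ℕ × ℕ) :=
  {q | 0 < q.1 ∧ 0 < q.2 ∧ Nat.Coprime q.1 q.2 ∧
    (q.1 * q.2 * (q.1 + q.2)).primeFactors.card ≤ n ∧ (radical q : ℝ) ≤ Y ∧
    (radical q : ℝ) ^ K ≤ ((q.1 + q.2 : ℕ) : ℝ)}

open Pool.Agent.Y913 Pool.Agent.Y913.Nb Pool.Agent.Y913.Vm Pool.Agent.Y913.Wm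

/-- all members power products, or two of them -/
lemma exceptional_count (n : ℕ) (δ ε : ℝ) (hδ : 0 < δ) (hε : 0 < ε) : ∃ K C η : ℝ, 0 < K ∧
    0 < C ∧ 0 < η ∧ ∀ Y : ℝ, 1 ≤ Y → (exceptional n δ η K Y).Finite ∧
      ((exceptional n δ η K Y).ncard : ℝ) ≤ C * Y ^ ε := by
  classical
  obtain ⟨K1, C1, η1, hK1, hC1, hη1, h1⟩ := abc3_count n δ ε hδ hε
  obtain ⟨K2, C2, hK2, hC2, h2⟩ := Zm.nt_count n ε hε
  refine ⟨max K1 K2, C1 + C2, η1, lt_max_of_lt_left hK1, by positivity, hη1, ?_⟩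
  intro Y hY
  apply Sm.finite_of_bound
  intro Q hQ
  have f1 : Y ^ K1 ≤ Y ^ (max K1 K2) := Real.rpow_le_rpow_of_exponent_le hY (le_max_left _ _)
  have f2 : Y ^ K2 ≤ Y ^ (max K1 K2) := Real.rpow_le_rpow_of_exponent_le hY (le_max_right _ _)
  have hcov : Q ⊆ Q.filter (fun q => AbcExc3 n δ η1 K1 Y q) ∪
      Q.filter (fun q => Zm.Nt n K2 Y q) := by
    intro q hq
    obtain ⟨g1, g2, g3, g4, g5⟩ := hQ q hq
    rw [Finset.mem_union, Finset.mem_filter, Finset.mem_filter]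
    rcases g5 with ⟨g5, g6, g7⟩ | g5
    · right
      exact ⟨hq, g1, g2, g3, g5, g6, g7, f2.trans g4⟩
    · left
      exact ⟨hq, g1, g2, g3, f1.trans g4, g5⟩
  have c1 := h1 Y hY (Q.filter (fun q => AbcExc3 n δ η1 K1 Y q))
    (fun q hq => (Finset.mem_filter.mp hq).2)
  have c2 := h2 Y hY (Q.filter (fun q => Zm.Nt n K2 Y q))
    (fun q hq => (Finset.mem_filter.mp hq).2)
  have hcard : (Q.card : ℝ) ≤ (Q.filter (fun q => AbcExc3 n δ η1 K1 Y q)).card +
      (Q.filter (fun q => Zm.Nt n K2 Y q)).card := by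
    exact_mod_cast (Finset.card_le_card hcov).trans (Finset.card_union_le _ _)
  linarith

/-- **Main theorem.** -/
theorem result (n : ℕ) (δ ε : ℝ) (hδ : 0 < δ) (hε : 0 < ε) : ∃ K C η : ℝ, 0 < K ∧ 0 < C ∧
    0 < η ∧ ∀ Y : ℝ, 1 ≤ Y →
      ((exceptional n δ η K Y).Finite ∧ ((exceptional n δ η K Y).ncard : ℝ) ≤ C * Y ^ ε) ∧
      ((violations n K Y).Finite ∧ ((violations n K Y).ncard : ℝ) ≤ C * Y ^ ε) := by
  classical
  obtain ⟨K1, C1, η, hK1, hC1, hη, h1⟩ := exceptional_count n δ ε hδ hε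
  obtain ⟨K2, C2, hK2, hC2, h2⟩ := viol_eps n ε hε
  refine ⟨K1 + K2, C1 + C2, η, by positivity, by positivity, hη, ?_⟩
  intro X hX
  refine ⟨?_, ?_⟩
  · have hX0 : 0 < X := by linarith
    obtain ⟨h5, h6⟩ := h1 X hX
    have hsub : exceptional n δ η (K1 + K2) X ⊆ exceptional n δ η K1 X := by
      rintro q ⟨g1, g2, g3, g4, g5⟩
      exact ⟨g1, g2, g3, (Real.rpow_le_rpow_of_exponent_le hX (by linarith)).trans g4, g5⟩
    refine ⟨h5.subset hsub, ?_⟩
    have h7 : ((exceptional n δ η (K1 + K2) X).ncard : ℝ) ≤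
        ((exceptional n δ η K1 X).ncard : ℝ) := by
      exact_mod_cast Set.ncard_le_ncard hsub h5
    have h8 : 0 < X ^ ε := by positivity
    nlinarith
  · apply Sm.finite_of_bound
    intro Q hQ
    have hX0 : 0 < X := by linarith
    have h5 := h2 X hX Q (by
      intro q hq
      obtain ⟨g1, g2, g3, g4, g5, g6⟩ := hQ q hq
      have g7 : (1 : ℝ) ≤ (Sm.radT q : ℝ) := by
        exact_mod_cast (Sm.radT_two_le g1 g2).trans' (by norm_num)
      exact ⟨g1, g2, g3, g4, g5, (Real.rpow_le_rpow_of_exponent_le g7 (by linarith)).trans g6⟩)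
    have h6 : 0 < X ^ ε := by positivity
    nlinarith

end Pool.Agent.Results.MP_7aad9f_nt.PowerProductsAllHeights
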