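import Mathlib
import Pool.Agent.Y724.T4.ABQ

set_option autoImplicit false

/-!
# The abc inequality at the triples of sparse integers, with any sparse multiple of the radical

Let `S` be a finite set of primes. An integer is called sparse if it is a sum of at most `l` numbers
`k u`, `u` an `S`-unit (positive or negative exponents) and `k` an integer of absolute value at most
`B c ^ δ`. We prove `c ≤ C ρ ^ (1 + ε)` for all coprime `a + b = c` and all `ρ` with
`ρ ^ m = a b c t`, if `a`, `b`, `ρ` and `t` are sparse. If `ρ` is the radical of `a b c`, this is the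
abc inequality; if `a`, `b`, `c` are products of bounded powers of sparse numbers `x_1, …, x_k`, then
`ρ = x_1 ⋯ x_k` is allowed, so that `c ≤ C |x_1 ⋯ x_k| ^ (1 + ε)`. Since `ρ` may be divided by any
`S`-unit, the same holds with the part of `ρ` prime to `S` in place of `ρ`.
-/

namespace Pool.Agent.Results.MP_7aad9f_nt.SparseTriplesOverQ

/-- `u` is an `S`-unit: plus or minus a product of powers (with integer exponents) of the primes in
`S` -/
def IsSUnit (S : Finset ℕ) (u : ℚ) : Prop :=
  ∃ (σ : ℤ) (e : ℕ → ℤ), (σ = 1 ∨ σ = -1) ∧ u = σ * ∏ p ∈ S, (p : ℚ) ^ e p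

/-- the rational number `z` is a sum of `l` `S`-units with integer coefficients of absolute value at
most `R` -/
def IsSparse (S : Finset ℕ) (l : ℕ) (R : ℝ) (z : ℚ) : Prop :=
  ∃ (u : Fin l → ℚ) (k : Fin l → ℤ), (∀ j, IsSUnit S (u j)) ∧ (∀ j, |(k j : ℝ)| ≤ R) ∧
    z = ∑ j, u j * k j

/-- **Main theorem.** For every finite set `S` of primes, all `l`, `m`, all real `B` and all `ε > 0`
there are `δ > 0` and `C` such that `c ≤ C ρ ^ (1 + ε)` for all coprime positive integers `a`, `b`
with sum `c` and all positive integers `ρ` and rational numbers `t` with `ρ ^ m = a b c t` for which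
`a`, `b`, `ρ` and `t` are sums of `l` `S`-units with integer coefficients of absolute value at most
`B c ^ δ`. -/
theorem result (S : Finset ℕ) (hS : ∀ p ∈ S, p.Prime) (l m : ℕ) (B ε : ℝ) (hε : 0 < ε) :
    ∃ (δ C : ℝ), 0 < δ ∧ ∀ (a b c : ℕ), 0 < a → 0 < b → a.Coprime b → a + b = c →
      ∀ (ρ : ℕ) (t : ℚ), 0 < ρ → (ρ : ℚ) ^ m = a * b * c * t →
      IsSparse S l (B * (c : ℝ) ^ δ) a → IsSparse S l (B * (c : ℝ) ^ δ) b →
      IsSparse S l (B * (c : ℝ) ^ δ) ρ → IsSparse S l (B * (c : ℝ) ^ δ) t →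
      (c : ℝ) ≤ C * (ρ : ℝ) ^ (1 + ε) := by
  obtain ⟨δ, C, hδ, hmain⟩ := Pool.Agent.Y724.T4.abq_core ℚ (Module.finrank_self ℚ) S hS l m B ε hε
  refine ⟨δ, Real.exp C, hδ, ?_⟩
  intro a b c ha hb hab hsum ρ t hρ ht h1 h2 h3 h4
  have h5 := hmain a b c ha hb hab hsum ρ t hρ ht (fun i => by
    fin_cases i
    · exact h1
    · exact h2
    · exact h3
    · exact h4)
  have hc : (0 : ℝ) < c := by
    have : 0 < c := by omega
    exact_mod_cast this
  have hρR : (0 : ℝ) < ρ := by exact_mod_cast hρ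
  have h6 := Real.exp_le_exp.2 h5
  rw [Real.exp_log hc, Real.exp_add, mul_comm (1 + ε), Real.exp_mul, Real.exp_log hρR, mul_comm] at h6
  exact h6

end Pool.Agent.Results.MP_7aad9f_nt.SparseTriplesOverQ
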