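import Pool.Agent.Y913.Sm.AbcP

/-!
For all `n` and `δ`, `ε > 0` there are `K`, `C` such that for every `Y ≥ 1` and every finite set `S`
of primes `≤ Y` there are at most `C * (1 + #S) * Y ^ ε` triples of coprime positive integers
`a + b = c ≥ Y ^ K` of which two members have at most `n` prime factors, all `≤ Y`, and the third is
`d * w` with `d` having at most `n` prime factors, all in `S`, and `w ≤ c ^ (1 - δ)`. For `θ > 0` at
most `C' * (1 + #S) * (1 + log Y)` of them have `log c ≥ Y ^ θ`. There is no upper bound on `c`.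
-/

set_option autoImplicit false

namespace Pool.Agent.Results.MP_7aad9f_nt.TwoMembersFewPrimes

/-- `m` is positive and has at most `n` distinct prime factors, all `≤ Z` -/
def FewPrimes (n : ℕ) (Z : ℝ) (m : ℕ) : Prop :=
  0 < m ∧ m.primeFactors.card ≤ n ∧ ∀ l ∈ m.primeFactors, (l : ℝ) ≤ Z

/-- `m = d * w` where `d` is positive and has at most `n` distinct prime factors, all in `S`, and
`w ≤ W` -/
def AlmostFewPrimes (n : ℕ) (S : Finset ℕ) (W : ℝ) (m : ℕ) : Prop :=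
  ∃ d w : ℕ, m = d * w ∧ (0 < d ∧ d.primeFactors.card ≤ n ∧ d.primeFactors ⊆ S) ∧ (w : ℝ) ≤ W

/-- the abc triples `(a, b, a + b)`, written `(a, b)`: coprime positive `a`, `b` such that
`c = a + b ≥ Y ^ K`, two of `a`, `b`, `c` have at most `n` prime factors, all `≤ Y`, and the third
one is `d * w` where `d` has at most `n` prime factors, all in `S`, and `w ≤ c ^ (1 - δ)` -/
def almost (n : ℕ) (δ K Y : ℝ) (S : Finset ℕ) : Set (ℕ × ℕ) :=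
  {q | 0 < q.1 ∧ 0 < q.2 ∧ Nat.Coprime q.1 q.2 ∧ Y ^ K ≤ ((q.1 + q.2 : ℕ) : ℝ) ∧
    ((FewPrimes n Y q.2 ∧ FewPrimes n Y (q.1 + q.2) ∧
        AlmostFewPrimes n S (((q.1 + q.2 : ℕ) : ℝ) ^ (1 - δ)) q.1) ∨
     (FewPrimes n Y q.1 ∧ FewPrimes n Y (q.1 + q.2) ∧
        AlmostFewPrimes n S (((q.1 + q.2 : ℕ) : ℝ) ^ (1 - δ)) q.2) ∨
     (FewPrimes n Y q.1 ∧ FewPrimes n Y q.2 ∧
        AlmostFewPrimes n S (((q.1 + q.2 : ℕ) : ℝ) ^ (1 - δ)) (q.1 + q.2)))}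

open Pool.Agent.Y913

/-- **Main theorem.** -/
theorem result (n : ℕ) (δ ε : ℝ) (hδ : 0 < δ) (hε : 0 < ε) : ∃ K C : ℝ, 0 < K ∧ 0 < C ∧
    (∀ Y : ℝ, 1 ≤ Y → ∀ S : Finset ℕ, (∀ p ∈ S, p.Prime ∧ (p : ℝ) ≤ Y) →
      (almost n δ K Y S).Finite ∧
      ((almost n δ K Y S).ncard : ℝ) ≤ C * (1 + S.card) * Y ^ ε) ∧
    ∀ θ : ℝ, 0 < θ → ∃ C' : ℝ, 0 < C' ∧ ∀ Y : ℝ, 1 ≤ Y → ∀ S : Finset ℕ,
      (∀ p ∈ S, p.Prime ∧ (p : ℝ) ≤ Y) →
      ((almost n δ K Y S ∩ {q | Y ^ θ ≤ Real.log ((q.1 + q.2 : ℕ) : ℝ)}).ncard : ℝ) ≤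
        C' * (1 + S.card) * (1 + Real.log Y) := by
  classical
  obtain ⟨K3, C3, hK3, hC3, h3, -, h4⟩ := Pool.Agent.Y913.Sm.abcp_main n δ ε hδ hε
  refine ⟨K3, C3, hK3, hC3, ?_, ?_⟩
  · intro X hX S hS
    exact h3 X hX S hS
  · intro θ hθ
    obtain ⟨C', hC', h5⟩ := h4 θ hθ
    refine ⟨C', hC', ?_⟩
    intro X hX S hS
    exact h5 X hX S hS

end Pool.Agent.Results.MP_7aad9f_nt.TwoMembersFewPrimes
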